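import Pool.Agent.Lib.MP_aa40d3_nt.FT.Big

/-! The number of exchanges that is needed does not depend on the special members. -/

open Matrix

namespace Pool.Agent.GR.FU

open GC NP FK FS FT

section
variable {G : Type} [Group G] {d : ℕ} {b : BS G d} {S : Finset (Fin d)}

/-- All but `2 |S|` exchanges can be given the same type. -/
theorem two {a c : Fin d} (ha : a ∈ S) (hc : c ∈ S) (hac : a ≠ c) (n : ℕ) : ∀ T : List G,
    T.length ≤ n → (∀ x ∈ T, b.IsSw x) → b.Sup (gen T) S → b.Trans (gen T) S →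
    ∃ A B, Hur T (A ++ B) ∧ (∀ x ∈ A, b.Swap x a c) ∧ B.length ≤ 2 * S.card := by
  induction n with
  | zero => exact fun T h _ _ _ => ⟨[], T, Hur.refl _, by simp, by omega⟩
  | succ n ih =>
    intro T hn hT hs ht
    by_cases h0 : T.length ≤ 2 * S.card
    · exact ⟨[], T, Hur.refl _, by simp, h0⟩
    obtain ⟨x, x', i, k, T', h1, hx, hx', h2⟩ := free_pair _ S T rfl hT hs (by omega)
    have hT1 := h1.all (fun γ x hx => hx.conj γ) hT
    have hT' : ∀ z ∈ T', b.IsSw z := fun z hz => hT1 z (by simp [hz])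
    have h3 : b.Trans (gen T') S := (h1.gen ▸ ht).of_le (gen_le.2 fun σ hσ => by
      simp only [List.map_cons, List.mem_cons] at hσ
      rcases hσ with rfl | rfl | hσ
      exacts [h2, (hx.sim hx').1 ▸ h2, mem_gen hσ])
    have hxT : x ∈ gen T := h1.gen ▸ mem_gen List.mem_cons_self
    obtain ⟨w, hw, e1, e2⟩ := BS.bta_two (BS.conn_sub hT' h3) (hs.mem hxT hx)
      (hs.mem hxT hx.symm) hx.1 ha hc hac
    have hu := hx.conj w
    rw [e1, e2] at hu
    have h4 := circle T' (inv_mem hw) hx.2.2.1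
    rw [inv_inv] at h4
    obtain ⟨l', h5, h6⟩ := BS.shadow hx hx' h4
    obtain ⟨u, l₁, a1, a2, rfl⟩ := List.forall₂_cons_right_iff.1 h6
    obtain ⟨v, l₂, a3, a4, rfl⟩ := List.forall₂_cons_right_iff.1 a2
    have h7 := h1.trans h5
    have h8 := h7.length
    simp only [List.length_cons] at h8
    obtain ⟨A, B, k1, k2, k3⟩ := ih l₂ (by omega)
      (fun z hz => (BS.sim_mem a4 z hz).elim fun t ht => ht.2.isSw (hT' t ht.1))
      (fun z hz => hs z (h7.gen ▸ gen_le.2 (fun t ht => mem_gen (by simp [ht])) hz))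
      (h3.of_le (by rw [BS.sim_map a4]))
    refine ⟨u :: v :: A, B, h7.trans (k1.app_left [u, v]), fun z hz => ?_, k3⟩
    simp only [List.mem_cons] at hz
    rcases hz with rfl | rfl | hz
    exacts [a1.swap hu, a3.swap hu, k2 z hz]

end

/-- Many exchanges of one type contain three equal ones. -/
theorem equal (r : ℕ) (hr : 1 ≤ r) : ∃ k : ℕ, ∀ (d m : ℕ) (G : Type) [Group G] (σ : G →* Mt m) (b : BR σ d)
    (A : List G) (a c : Fin d), (∀ i, (b.e i).rank = r) → (∀ x ∈ A, b.bs.Swap x a c) →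
    LK b.π IsOfFinOrder A → k ≤ A.length → ∃ x R, Hur A (x :: x :: x :: R) ∧ b.bs.IsSw x := by
  classical
  obtain ⟨k, hk⟩ := tri (2 ^ 2) (2 * r)
  refine ⟨k + 1, fun d m G _ σ b A a c hrk hA hL hn => ?_⟩
  obtain ⟨x₀, hx₀⟩ := List.exists_mem_of_length_pos (l := A) (by omega)
  have hS : ({a, c} : Finset (Fin d)).card = 2 := Finset.card_pair (hA x₀ hx₀).1
  have h3 : b.bs.Sup (gen A) {a, c} := fun x hx l hl => by
    rw [Finset.mem_insert, Finset.mem_singleton, not_or] at hl
    exact gen_le.2 (fun y hy => (hA y hy).2.2.2 l hl.1 hl.2) hx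
  obtain ⟨m', τ, k1, k2, k3⟩ := restr b (gen A) h3
  let l' : List (gen A) := A.pmap Subtype.mk fun _ => mem_gen
  have hl' : l'.map (gen A).subtype = A := by
    simp only [l', List.map_pmap, Subgroup.coe_subtype, List.pmap_eq_map, List.map_id']
  obtain ⟨U, x, x', z, R, -, a2, a3, a4, a5, a6, a7⟩ := hk m' (k1.trans (by
      simp only [hrk, Finset.sum_const, hS, smul_eq_mul, le_refl])) (gen A) l' τ d
    (b.π.comp (gen A).subtype) (fun x => decide (b.bs.IsSw x.val))
    (hS ▸ ker_index _ {a, c} fun x j hj => (h3 x x.2 j hj).1) (by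
      apply Subgroup.map_injective (gen A).subtype_injective
      rw [← MonoidHom.range_eq_map, Subgroup.range_subtype]
      refine (MonoidHom.map_closure _ _).trans (congrArg Subgroup.closure ?_)
      ext x
      exact List.mem_map.symm.trans (iff_of_eq (congrArg (x ∈ ·) hl')))
    (LK.of_map (gen A).subtype (π' := b.π) (fun _ => rfl)
      (fun x hx => k2 x (qu_of_fin σ hx)) (hl'.symm ▸ hL))
    (fun γ x hx => decide_eq_true ((of_decide_eq_true hx).conj γ.val))
    (fun x hx => let ⟨_, _, e⟩ := of_decide_eq_true hx; Subtype.ext e.2.2.1) (by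
      rw [List.countP_eq_length.2 fun y hy => decide_eq_true ⟨a, c, hA _
        ((congrArg (y.val ∈ ·) hl').mp (List.mem_map_of_mem hy))⟩, ← List.length_map (gen A).subtype, hl']
      omega)
  have a8 := a3.map (gen A).subtype
  rw [hl'] at a8
  have h0 : ∀ i, b.e i ≠ 0 := fun i e => by
    have h1 := hrk i
    rw [e, Matrix.rank_zero] at h1
    omega
  have key : ∀ (u v : gen A) (P R : List G), Hur A (P ++ u.val :: v.val :: R) → b.bs.IsSw u.val →
      u * v ∈ U → v.val = u.val := fun u v P R e ⟨_, _, hu⟩ hU => by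
    have h1 : IsNilpotent (σ (u.val * v.val) - 1) := unip_nil (k3 U m' a2) hU
    have h2 : IsNilpotent (σ (u.val * v.val)⁻¹ - 1) := unip_nil (k3 U m' a2) (inv_mem hU)
    have h4 := (hL.hur e).adj (unip_pi b h0 h1 h2)
    exact mul_left_cancel ((b.inj ((unip_tf h1 h4).trans (map_one σ).symm)).trans hu.2.2.1.symm)
  have e1 := key x x' [] _ a8 (of_decide_eq_true a4) a6
  have e2 := key x' z [x.val] _ a8 (of_decide_eq_true a5) a7
  refine ⟨x.val, R.map (gen A).subtype, ?_, of_decide_eq_true a4⟩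
  change Hur A (x.val :: x'.val :: z.val :: _) at a8
  rwa [e2, e1] at a8

theorem finite_bigU (r : ℕ) (hr : 1 ≤ r) : ∃ k : ℕ, ∀ (s d m : ℕ) (G : Type) [Group G]
    (σ : G →* Mt m) (b : BR σ d) (l : List G), 3 ≤ d → s + 1 ≤ d → (∀ i, (b.e i).rank = r) →
    Bg b.bs s k IsOfFinOrder l → Finite G := by
  classical
  obtain ⟨k, hk⟩ := equal r hr
  refine ⟨k + 1, fun s d m G _ σ b l hd hs hrk ⟨hg, ⟨T, R, h1, h2, h4⟩, hQ, hl⟩ => ?_⟩
  have hc : ∀ γ x : G, IsOfFinOrder x → IsOfFinOrder (γ * x * γ⁻¹) := fun γ x hx =>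
    (isConj_iff.2 ⟨γ, rfl⟩ : IsConj x (γ * x * γ⁻¹)).isOfFinOrder hx
  have hu : (Finset.univ : Finset (Fin d)).card = d := by simp
  obtain ⟨T', R', y, i, hi, k1, k2, k3, k4, k5⟩ := step (Finset.mem_univ (⟨0, by omega⟩ : Fin d))
    (by omega) (by omega) h2 (by omega)
  generalize (⟨0, by omega⟩ : Fin d) = j at hi k2 k3 k5
  have hS := Finset.card_erase_of_mem (Finset.mem_univ j)
  have hj := Finset.notMem_erase j Finset.univ
  generalize Finset.univ.erase j = S at hi k3 k5 hS hj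
  rw [h1.gen, hg] at k5
  have k6 := h1.trans k1
  have hA : ∀ a ∈ T' ++ R', a ∈ b.bs.K j := fun a ha => k3.sup a (mem_gen ha) j hj
  have hL : LK b.π IsOfFinOrder (T' ++ R') := fun C C' hT hπ => by
    rcases hπ with hπ | hπ
    · refine fin_sheets b.bs _ hπ fun c => ?_
      by_cases e : c ∈ S
      · obtain ⟨γ, hγ, rfl⟩ := k3.tr i hi c e
        exact Or.inr (cap hQ k6 k2 hA hT (gen_left _ _ hγ))
      · exact Or.inl (k3.sup _ (hT.gen ▸ (gen (C ++ C')).list_prod_mem fun x hx =>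
          mem_gen (List.mem_append_left _ hx)) c e)
    · obtain ⟨w, rfl⟩ := List.length_eq_one_iff.1 hπ
      rw [List.prod_singleton]
      exact (k6.trans (hT.app_right _)).all hc hl w (by simp)
  obtain ⟨c, hc1, hc2⟩ := Finset.exists_mem_ne (s := S) (by omega) i
  obtain ⟨A, B, a1, a2, a3⟩ := two hi hc1 hc2.symm _ T' le_rfl k3.sw
    (fun z hz => k3.sup z (gen_left _ _ hz)) k3.tr
  have a4 := a1.length
  rw [List.length_append] at a4
  obtain ⟨x, C, a5, a6⟩ := hk d m G σ b A i c hrk a2 (hL.hur (a1.app_right R')).left.left (by omega)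
  have a7 : Hur l (x :: x :: x :: ((C ++ B ++ R') ++ y :: y :: [])) := by
    simpa using k6.trans (((a1.trans (a5.app_right B)).app_right R').app_right [y, y])
  have a8 := trick1 (MonoidHom.id G) (fun v w e hv => (show v = w from e) ▸ hv) hg hQ a7 a6 a6 rfl
    rfl k2.2.2.1
  have h10 : ∀ P : G, IsOfFinOrder P := fun P => by
    have e : b.bs.π (P ^ orderOf (b.π P)) = 1 := (map_pow _ _ _).trans (pow_orderOf_eq_one _)
    exact (fin_sheets b.bs _ e fun c => Or.inr (trick2 (fun u hu v hv e =>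
      (BS.conn_sub h2.sw h2.tr u hu v hv e).imp fun _ e => e.2) a6 k2 hi (gen_le.2 hA) k5 hc a8 _
      e c)).of_pow (orderOf_pos _).ne'
  obtain ⟨H, f1, f2⟩ := kol σ hg fun x => qu_of_fin σ (h10 x)
  rw [(Subgroup.eq_bot_iff_forall H).2 fun w hw => b.inj
    ((unip_tf (unip_nil f2 hw) (h10 w)).trans (map_one σ).symm)] at f1
  exact Nat.finite_of_card_ne_zero (Subgroup.index_bot (G := G) ▸ f1.index_ne_zero)

end Pool.Agent.GR.FU
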